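import Pool.Agent.T9h37.MC.Main

/-!
# Consequences of Murre's conjecture (C) for a single variety
-/

open CategoryTheory AlgebraicGeometry

set_option autoImplicit false

universe u v w

namespace Pool.Agent.T9h37.MC

open Pool.Agent.H914 Pool.Agent.H914.VarClass Pool.Agent.H914.VarClass.Obj Pool.Agent.W492.BB
  Pool.Agent.W550.Corr Pool.Agent.TH133 Pool.Agent.Y110 Pool.Agent.TH829.Kim

set_option linter.unusedSectionVars false

variable {k : Type u} [Field k] {𝒱 : VarClass k} {C : TheoryData.{u, v, 0} 𝒱 ℚ}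
  [hC : IsChowProj C] {K : Type w} [Field K]
  {H : WeilTheoryData.{u, v, w} C K} [hH : IsWeilProj H] {X Y Z W : 𝒱.Obj}

include hC hH

lemma b0_of_c (h : MurreC H X) : MurreB0 H X :=
  murreB0_of_C0 X fun π π' h1 h2 i => h π π' h1 h2 i 0

lemma act_gt (h : MurreC H X) {P : ℕ → Cor C X} (hP : IsCK H X P) {i j : ℕ} (hij : 2 * i < j)
    {x : C.A X} (hx : x ∈ C.gr X i) : actC C X (P j) x = 0 :=
  (murreB0_iff X).1 (b0_of_c h) P hP i j x hx hij

lemma mem_fil {P : ℕ → Cor C X} (hP : IsCK H X P) (i n : ℕ) (x : C.A X) :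
    x ∈ ckFil C P i n ↔ x ∈ C.gr X i ∧ ∀ j, 2 * i + 1 - n ≤ j → actC C X (P j) x = 0 :=
  hP.mem_ckFil i n x

lemma actC_mul (a b : Cor C X) (x : C.A X) :
    actC C X (a * b) x = actC C X a (actC C X b x) := by
  rw [map_mul, Module.End.mul_apply]

lemma actC_mem {a : Cor C X} (ha : a ∈ cor0 C X) {i : ℤ} {x : C.A X} (hx : x ∈ C.gr X i) :
    actC C X a x ∈ C.gr X i := act_mem0 C ha hx

/-- Correspondences from `h^a` to `h^b` act as zero on the Chow groups for `a < b`. -/
theorem raise_zero (h : MurreC H X) {P : ℕ → Cor C X} (hP : IsCK H X P) {a b : ℕ} (hab : a < b)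
    {γ : Cor C X} (hγ : γ ∈ cor0 C X) {i : ℕ} {x : C.A X} (hx : x ∈ C.gr X i) :
    actC C X (P b * γ * P a) x = 0 := by
  have hm : ∀ i, P i ∈ cor0 C X := hP.deg
  have hba : P a * P b = 0 := by rw [hP.mul_eq, if_neg (by omega)]
  have hab' : P b * P a = 0 := by rw [hP.mul_eq, if_neg (by omega)]
  have haa : P a * P a = P a := by rw [hP.mul_eq, if_pos rfl]
  have hbb : P b * P b = P b := by rw [hP.mul_eq, if_pos rfl]
  set n : Cor C X := P b * γ * P a with hn
  have hnm : n ∈ cor0 C X := (cor0 C X).mul_mem ((cor0 C X).mul_mem (hm b) hγ) (hm a)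
  have hnn : n * n = 0 := by
    have : n * n = P b * γ * (P a * P b) * γ * P a := by
      simp only [n, mul_assoc]
    rw [this, hba, mul_zero, zero_mul, zero_mul]
  have hPn : P b * n = n := by rw [hn, ← mul_assoc, ← mul_assoc, hbb]
  have hnP : n * P a = n := by rw [hn, mul_assoc, haa]
  have hnact : ∀ v : H.A X, actH C X H n v = 0 := by
    have h0 : actH C X H n = 0 := by
      apply ext_gr H
      intro m v hv
      rw [hn, map_mul, map_mul, Module.End.mul_apply, Module.End.mul_apply, hP.actH_eq' a m hv]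
      split_ifs with h1
      · rw [hP.actH_eq' b m (actH_mem0 hγ hv), if_neg (by omega)]
        rfl
      · rw [map_zero, map_zero]
        rfl
    intro v
    rw [h0]
    rfl
  have huv : (1 + n) * (1 - n) = 1 := by
    rw [mul_sub, add_mul, add_mul, hnn, mul_one, mul_one, one_mul, add_zero, add_sub_cancel_right]
  have hvu : (1 - n) * (1 + n) = 1 := by
    rw [mul_add, sub_mul, sub_mul, hnn, mul_one, mul_one, one_mul, sub_zero, sub_add_cancel]
  have hQ : IsCK H X (fun i => ((1 + n) * P i * (1 - n) : Cor C X)) :=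
    hP.conj ((cor0 C X).add_mem (cor0 C X).one_mem hnm)
      ((cor0 C X).sub_mem (cor0 C X).one_mem hnm) huv hvu (fun v => by
        rw [map_add, LinearMap.add_apply, hnact, add_zero, map_one]
        rfl)
  set y := actC C X (P a) x with hy
  have hyg : y ∈ C.gr X i := actC_mem (H := H) (hm a) hx
  have hny : actC C X n y = actC C X n x := by
    rw [hy, ← actC_mul (H := H), hnP]
  rw [← hny]
  by_cases hai : 2 * i < a
  · rw [hy, act_gt h hP hai hx, map_zero]
  · have h1 : y ∈ ckFil C P i (2 * i - a) := by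
      rw [mem_fil hP]
      refine ⟨hyg, fun j hj => ?_⟩
      rw [hy, ← actC_mul (H := H), hP.mul_eq, if_neg (by omega), map_zero]
      rfl
    have h2 : y ∈ ckFil C (fun i => ((1 + n) * P i * (1 - n) : Cor C X)) i (2 * i - a) := by
      rw [← h P _ hP hQ]
      exact h1
    rw [mem_fil hQ] at h2
    have h3 := h2.2 b (by omega)
    have h4 : (1 + n) * P b * (1 - n) = (1 + n) * P b - n := by
      rw [mul_sub, mul_one]
      congr 1
      rw [mul_assoc, hPn, add_mul, one_mul, hnn, add_zero]
    have h5 : actC C X ((1 + n) * P b) y = 0 := by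
      rw [hy, ← actC_mul (H := H), mul_assoc, hab', mul_zero, map_zero]
      rfl
    change actC C X ((1 + n) * P b * (1 - n)) y = 0 at h3
    rw [h4, map_sub, LinearMap.sub_apply, h5, zero_sub, neg_eq_zero] at h3
    exact h3

/-- The filtration is stable under the self-correspondences of degree zero. -/
theorem stable_self (h : MurreC H X) {P : ℕ → Cor C X} (hP : IsCK H X P) {γ : Cor C X}
    (hγ : γ ∈ cor0 C X) {i n : ℕ} {x : C.A X} (hx : x ∈ ckFil C P i n) :
    actC C X γ x ∈ ckFil C P i n := by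
  rw [mem_fil hP] at hx ⊢
  refine ⟨actC_mem (H := H) hγ hx.1, fun m hm => ?_⟩
  have h1 : x = ∑ l ∈ Finset.range (2 * X.dim + 1), actC C X (P l) x := by
    have h2 : actC C X (∑ l ∈ Finset.range (2 * X.dim + 1), P l) x = x := by
      rw [hP.sum_eq, map_one]
      rfl
    rw [map_sum, LinearMap.sum_apply] at h2
    exact h2.symm
  rw [h1, map_sum, map_sum]
  apply Finset.sum_eq_zero
  intro l _
  by_cases hl : 2 * i + 1 - n ≤ l
  · rw [hx.2 l hl, map_zero, map_zero]
  · have h2 := raise_zero h hP (a := l) (b := m) (by omega) hγ hx.1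
    rw [actC_mul (H := H), actC_mul (H := H)] at h2
    exact h2

/-- In dimension zero a homologically trivial correspondence is zero. -/
lemma zero_of_dim (hd : X.dim = 0) {r : Cor C X} (hrm : r ∈ cor0 C X)
    (hrcl : H.cl (r : C.A (X.prod X)) = 0) : r = 0 := by
  obtain ⟨c, hc⟩ := hC.gr_zero (X.prod X) r (by
    have h3 : (r : C.A (X.prod X)) ∈ C.gr (X.prod X) X.dim := hrm
    rw [hd] at h3
    exact_mod_cast h3)
  by_cases hc0 : c = 0
  · rw [hc0, zero_smul] at hc
    exact hc
  · exfalso
    apply hH.one_ne_zero (X.prod X)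
    obtain ⟨r', hr'⟩ : ∃ r' : C.A (X.prod X), r' = r := ⟨r, rfl⟩
    rw [← hr'] at hc hrcl
    have h4 : (1 : C.A (X.prod X)) = (c⁻¹ • (1 : C.A (X.prod X))) * r' := by
      rw [hc, smul_mul_smul_comm, inv_mul_cancel₀ hc0, one_mul, one_smul]
    rw [← map_one H.cl, h4, map_mul, hrcl, mul_zero]

/-- Phantom summands of a Chow-Kunneth component act as zero on the Chow groups. -/
theorem phantom_act (h : MurreC H X) {P : ℕ → Cor C X} (hP : IsCK H X P) {q : Cor C X}
    (hq : q ∈ cor0 C X) (hcl : H.cl (q : C.A (X.prod X)) = 0) (hqq : q * q = q) {i : ℕ}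
    (h1 : P i * q = q) (h2 : q * P i = q) {j : ℕ} {x : C.A X} (hx : x ∈ C.gr X j) :
    actC C X q x = 0 := by
  rcases Nat.eq_zero_or_pos X.dim with hd | hd
  · rw [zero_of_dim hd hq hcl, map_zero]
    rfl
  by_cases hid : 2 * X.dim < i
  · have h3 : P i = 0 := hP.out i hid
    rw [← h1, h3, zero_mul, map_zero]
    rfl
  set y := actC C X q x with hy
  have hyg : y ∈ C.gr X j := actC_mem (H := H) hq hx
  have hPy : actC C X (P i) y = y := by rw [hy, ← actC_mul (H := H), h1]
  have hqy : actC C X q y = y := by rw [hy, ← actC_mul (H := H), hqq]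
  have hPl : ∀ l, l ≠ i → actC C X (P l) y = 0 := by
    intro l hl
    rw [← hPy, ← actC_mul (H := H), hP.mul_eq, if_neg hl, map_zero]
    rfl
  by_cases hij : 2 * j < i
  · rw [← hPy]
    exact act_gt h hP hij hyg
  rcases Nat.eq_zero_or_pos i with hi | hi
  · subst hi
    have hQ : IsCK H X (move P q 0 1) := move_isCK hP hq hcl hqq (by omega) (by omega) (by omega)
      h1 h2
    have h3 : y ∈ ckFil C P j (2 * j) := by
      rw [mem_fil hP]
      exact ⟨hyg, fun l hl => hPl l (by omega)⟩
    rw [h P _ hP hQ, mem_fil hQ] at h3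
    have h4 := h3.2 1 (by omega)
    have h5 : move P q 0 1 1 = P 1 + q := by
      unfold move
      rw [if_neg (by omega), if_pos rfl]
    rw [h5, map_add, LinearMap.add_apply, hPl 1 (by omega), zero_add, hqy] at h4
    exact h4
  · have hQ : IsCK H X (move P q i 0) := move_isCK hP hq hcl hqq (by omega) (by omega) (by omega)
      h1 h2
    have h3 : y ∈ ckFil C (move P q i 0) j (2 * j) := by
      rw [mem_fil hQ]
      refine ⟨hyg, fun l hl => ?_⟩
      by_cases hli : l = i
      · subst hli
        have h5 : move P q l 0 l = P l - q := by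
          unfold move
          rw [if_pos rfl]
        rw [h5, map_sub, LinearMap.sub_apply, hPy, hqy, sub_self]
      · have h5 : move P q i 0 l = P l := by
          unfold move
          rw [if_neg hli, if_neg (by omega)]
        rw [h5, hPl l hli]
    rw [← h P _ hP hQ, mem_fil hP] at h3
    have h4 := h3.2 i (by omega)
    rw [hPy] at h4
    exact h4

end Pool.Agent.T9h37.MC
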