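import Pool.Agent.W492.BB.Defs

/-!
# Algebraic cohomology groups
-/

open CategoryTheory AlgebraicGeometry

universe u v w

namespace Pool.Agent.T9h37.MC

open Pool.Agent.H914 Pool.Agent.H914.VarClass Pool.Agent.H914.VarClass.Obj Pool.Agent.W492.BB

variable {k : Type u} [Field k] {𝒱 : VarClass k}

/-- The cohomology group `H^(2i)(X)` is spanned by the classes of cycles of codimension `i`. -/
def Alg {C : TheoryData.{u, v, 0} 𝒱 ℚ} {K : Type w} [Field K]
    (H : WeilTheoryData.{u, v, w} C K) (X : 𝒱.Obj) (i : ℤ) : Prop :=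
  H.gr X (2 * i) ≤ Submodule.span K {a | ∃ x : C.A X, C.Deg i x ∧ H.cl x = a}

end Pool.Agent.T9h37.MC
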