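import Pool.Agent.T9h37.MC.Single
import Pool.Agent.T9h37.MC.Defs2
import Pool.Agent.TH133.Ext
import Pool.Agent.TH829.Prime.Num

/-!
# Murre's conjecture (C) for a variety with algebraic cohomology
-/

open CategoryTheory AlgebraicGeometry

set_option autoImplicit false

universe u v w

namespace Pool.Agent.T9h37.MC

open Pool.Agent.H914 Pool.Agent.H914.VarClass Pool.Agent.H914.VarClass.Obj Pool.Agent.W492.BB
  Pool.Agent.W550.Corr Pool.Agent.TH133 Pool.Agent.Y110 Pool.Agent.TH829.Kim
  Pool.Agent.TH829.Prime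

set_option linter.unusedSectionVars false

variable {k : Type u} [Field k] {𝒱 : VarClass k}

variable {C : TheoryData.{u, v, 0} 𝒱 ℚ}
  [hC : IsChowProj C] {K : Type w} [Field K]
  {H : WeilTheoryData.{u, v, w} C K} [hH : IsWeilProj H] {X Y Z W : 𝒱.Obj}

include hC hH

variable (H) in
lemma charZero_K (X : 𝒱.Obj) : CharZero K := by
  have : Nontrivial (H.A X) := ⟨1, 0, hH.one_ne_zero X⟩
  have : CharZero (H.A X) :=
    charZero_of_injective_ringHom (H.cl.comp (algebraMap ℚ (C.A X))).injective
  exact RingHom.charZero (algebraMap K (H.A X))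

lemma cl_smul_q (q : ℚ) (x : C.A X) : H.cl (q • x) = (q : K) • H.cl x := by
  have := charZero_K H X
  have h1 : H.cl.comp (algebraMap ℚ (C.A X)) = (algebraMap K (H.A X)).comp (Rat.castHom K) :=
    Subsingleton.elim _ _
  have h2 := RingHom.congr_fun h1 q
  simp only [RingHom.comp_apply, Rat.coe_castHom] at h2
  rw [Algebra.smul_def, map_mul, Algebra.smul_def, h2]

variable (H) in
/-- The trace of the class of a zero-cycle is a nonzero multiple of its degree. -/
lemma tr_cl (X : 𝒱.Obj) : ∃ t : K, t ≠ 0 ∧ ∀ (x : C.A X) (q : ℚ), HasDegree C x q →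
    H.tr X (H.cl x) = (q : K) * t := by
  obtain ⟨a, ha, h1, h2⟩ := hC.exists_deg_one X
  refine ⟨H.tr X (H.cl a), ?_, fun x q hx => ?_⟩
  · intro h0
    have h3 : H.cl a = 0 := by
      apply H.nondeg
      have h4 : H.tr X ∘ₗ LinearMap.mulLeft K (H.cl a) = 0 := by
        apply ext_gr H
        intro j b hb
        rw [LinearMap.comp_apply, LinearMap.mulLeft_apply, LinearMap.zero_apply]
        by_cases hj : j = 0
        · subst hj
          obtain ⟨c, rfl⟩ := hH.gr_zero X b hb
          rw [mul_smul_comm, mul_one, map_smul, h0, smul_zero]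
        · exact tr_zero H (H.mul_mem (H.cl_mem ha) hb) (by omega)
      intro b
      exact LinearMap.congr_fun h4 b
    apply hH.one_ne_zero X
    have h4 : H.cl (C.push (fst X X) (C.pull (snd X X) a)) = 1 := by
      rw [show C.push (fst X X) (C.pull (snd X X) a) = 1 from h1 X, map_one]
    rw [← h4, H.cl_push, H.cl_pull, h3, map_zero, map_zero]
  · have h3 : C.push (snd X X) (C.ext x a) = q • a := by
      rw [TheoryData.ext, C.proj_right, (hx X).1, smul_mul_assoc, one_mul]
    have h4 : C.push (fst X X) (C.ext x a) = x := by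
      rw [TheoryData.ext, C.proj_left, show C.push (fst X X) (C.pull (snd X X) a) = 1 from h1 X,
        mul_one]
    have h5 : H.tr X (H.cl (C.push (snd X X) (C.ext x a))) =
        H.tr X (H.cl (C.push (fst X X) (C.ext x a))) := by
      rw [H.cl_push, H.cl_push, H.tr_push, H.tr_push]
    rw [h3, h4, cl_smul_q, map_smul] at h5
    exact h5.symm

variable (H) in
/-- The degree of zero-cycles. -/
noncomputable def degL (X : 𝒱.Obj) : C.gr X X.dim →ₗ[ℚ] ℚ where
  toFun x := (exists_hasDegree x.2).choose
  map_add' x y := hasDegree_unique H (exists_hasDegree (x + y).2).choose_spec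
    (HasDegree.add (exists_hasDegree x.2).choose_spec (exists_hasDegree y.2).choose_spec)
  map_smul' r x := hasDegree_unique H (exists_hasDegree (r • x).2).choose_spec
    (HasDegree.smul r (exists_hasDegree x.2).choose_spec)

lemma degL_spec (x : C.gr X X.dim) : HasDegree C (x : C.A X) (degL H X x) :=
  (exists_hasDegree x.2).choose_spec

/-- Degrees of numerically equal zero-cycles. -/
lemma hasDegree_of_cl {x y : C.A X} (hx : x ∈ C.gr X X.dim) (hy : y ∈ C.gr X X.dim)
    (h : H.cl x = H.cl y) {q : ℚ} (hq : HasDegree C x q) : HasDegree C y q := by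
  have h1 : HasDegree C (y - x) 0 :=
    hasDegree_zero_of_cl H (Submodule.sub_mem _ hy hx) (by rw [map_sub, h, sub_self])
  have h2 := HasDegree.add h1 hq
  rwa [sub_add_cancel, zero_add] at h2

variable (H) in
/-- The even cohomology is finite-dimensional where it is algebraic. -/
lemma finite_span (X : 𝒱.Obj) : ∃ (m : ℕ) (v : Fin m → H.A X), ∀ (i : ℕ) (x : C.A X),
    x ∈ C.gr X i → H.cl x ∈ Submodule.span K (Set.range v) := by
  obtain ⟨m, p, u, v, hu, hv, huv⟩ := exists_kunneth H X
  refine ⟨m, v, fun i x hx => ?_⟩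
  have h1 : H.act (H.cl (dg C X)) (H.cl x) = H.cl x := actH_dg H _
  rw [huv] at h1
  have h2 : H.act (∑ l, H.ext (u l) (v l)) (H.cl x) = ∑ l, H.act (H.ext (u l) (v l)) (H.cl x) :=
    act_sum _ _ _ _
  rw [← h1, h2]
  apply Submodule.sum_mem
  intro l _
  have h3 : H.act (H.ext (u l) (v l)) (H.cl x) =
      H.push (snd X X) (H.pull (fst X X) (u l * H.cl x)) * v l := by
    rw [TheoryData.act_apply, TheoryData.ext, ← H.proj_right, map_mul (H.pull (fst X X)) (u l),
      mul_assoc, mul_assoc, ← H.cl_pull]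
    congr 2
    exact (H.cl_central _ _).symm
  rw [h3]
  have h4 : H.pull (fst X X) (u l * H.cl x) ∈ H.gr (X.prod X) (p l + 2 * i) :=
    H.pull_mem _ (H.mul_mem (hu l) (H.cl_mem hx))
  have h5 := H.push_mem (snd X X) h4
  rw [dim_prod] at h5
  rcases lt_trichotomy (p l + 2 * i) (2 * X.dim) with h | h | h
  · rw [H.gr_neg X _ (by push_cast; omega), Submodule.mem_bot] at h5
    rw [h5, zero_mul]
    exact Submodule.zero_mem _
  · have h6 : p l + 2 * (i : ℤ) + 2 * ((X.dim : ℤ) - ((X.dim + X.dim : ℕ) : ℤ)) = 0 := by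
      push_cast; omega
    rw [h6] at h5
    obtain ⟨c, hc⟩ := hH.gr_zero X _ h5
    rw [hc, smul_mul_assoc, one_mul]
    exact Submodule.smul_mem _ _ (Submodule.subset_span ⟨l, rfl⟩)
  · have h6 := H.mul_mem (hu l) (H.cl_mem hx)
    rw [gr_top H h, Submodule.mem_bot] at h6
    rw [h6, map_zero, map_zero, zero_mul]
    exact Submodule.zero_mem _

/-- Dual bases of algebraic cohomology groups. -/
lemma exists_dual {i : ℕ} (hA : Alg H X i ∧ Alg H X ((X.dim : ℤ) - i)) : ∃ (m : ℕ) (a b : Fin m → C.A X),
    (∀ l, a l ∈ C.gr X i) ∧ (∀ l, b l ∈ C.gr X ((X.dim : ℤ) - i)) ∧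
    (∀ j l, HasDegree C (a j * b l) (if j = l then 1 else 0)) ∧
    H.gr X (2 * i) ≤ Submodule.span K (Set.range fun l => H.cl (a l)) ∧
    LinearIndependent K (fun l => H.cl (a l)) := by
  have := charZero_K H X
  obtain ⟨m0, v, hv⟩ := finite_span H X
  set S : Set (H.A X) := {a | ∃ x : C.A X, C.Deg i x ∧ H.cl x = a} with hS
  obtain ⟨s, hsS, hspan, hli⟩ := exists_linearIndependent K S
  have hfin : Finite s := by
    apply LinearIndependent.finite_of_le_span_finite _ hli (Set.range v)
    rintro _ ⟨⟨y, hy⟩, rfl⟩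
    obtain ⟨x, hx, rfl⟩ := hsS hy
    exact hv i x hx
  obtain ⟨m, ⟨e⟩⟩ := Finite.exists_equiv_fin s
  have hch : ∀ l : Fin m, ∃ x : C.A X, C.Deg i x ∧ H.cl x = (e.symm l : H.A X) := fun l =>
    hsS (e.symm l).2
  choose a ha hcl using hch
  have hali : LinearIndependent K (fun l => H.cl (a l)) := by
    have h1 : (fun l => H.cl (a l)) = (fun x : s => (x : H.A X)) ∘ e.symm := by
      funext l
      exact hcl l
    rw [h1]
    exact hli.comp _ e.symm.injective
  have hasp : H.gr X (2 * i) ≤ Submodule.span K (Set.range fun l => H.cl (a l)) := by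
    refine hA.1.trans ?_
    rw [← hS, ← hspan]
    apply Submodule.span_mono
    intro y hy
    exact ⟨e ⟨y, hy⟩, by show H.cl (a _) = y; rw [hcl, Equiv.symm_apply_apply]⟩
  have hab : ∀ (x : C.A X), x ∈ C.gr X i → ∀ b : C.gr X ((X.dim : ℤ) - i),
      x * (b : C.A X) ∈ C.gr X X.dim := by
    intro x hx b
    have h1 := C.mul_mem hx b.2
    have h2 : (i : ℤ) + ((X.dim : ℤ) - i) = X.dim := by ring
    rwa [h2] at h1
  -- the intersection numbers with the `a l`
  let Φ : C.gr X ((X.dim : ℤ) - i) →ₗ[ℚ] (Fin m → ℚ) := LinearMap.pi fun l =>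
    { toFun := fun b => degL H X ⟨a l * (b : C.A X), hab _ (ha l) b⟩
      map_add' := fun b b' => by
        rw [← map_add]
        congr 1
        apply Subtype.ext
        exact mul_add _ _ _
      map_smul' := fun r b => by
        rw [RingHom.id_apply, ← map_smul]
        congr 1
        apply Subtype.ext
        exact mul_smul_comm _ _ _ }
  have hΦ : ∀ b l, Φ b l = degL H X ⟨a l * (b : C.A X), hab _ (ha l) b⟩ := fun b l => rfl
  obtain ⟨t, ht, htr⟩ := tr_cl H X
  have hsurj : LinearMap.range Φ = ⊤ := by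
    by_contra hne
    obtain ⟨f, hf0, hf⟩ := Submodule.exists_le_ker_of_lt_top _ (lt_top_iff_ne_top.2 hne)
    apply hf0
    set c : Fin m → ℚ := fun l => f (Pi.single l 1) with hc
    have hfc : ∀ y : Fin m → ℚ, f y = ∑ l, y l * c l := by
      intro y
      conv_lhs => rw [pi_eq_sum_univ' y]
      rw [map_sum]
      apply Finset.sum_congr rfl
      intro l _
      rw [map_smul, smul_eq_mul]
    set x : C.A X := ∑ l, c l • a l with hx
    have hclx : H.cl x = ∑ l, (c l : K) • H.cl (a l) := by
      rw [hx, map_sum]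
      exact Finset.sum_congr rfl fun l _ => cl_smul_q _ _
    have hx0 : H.cl x = 0 := by
      apply H.nondeg
      have hle : H.gr X (2 * ((X.dim : ℤ) - i)) ≤
          LinearMap.ker (H.tr X ∘ₗ LinearMap.mulLeft K (H.cl x)) := by
        refine hA.2.trans (Submodule.span_le.2 ?_)
        rintro _ ⟨y, hy, rfl⟩
        rw [SetLike.mem_coe, LinearMap.mem_ker, LinearMap.comp_apply, LinearMap.mulLeft_apply]
        have h6 : Φ ⟨y, hy⟩ ∈ LinearMap.ker f := hf ⟨_, rfl⟩
        rw [LinearMap.mem_ker, hfc] at h6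
        rw [← map_mul]
        have h7 : HasDegree C (x * y) (∑ l, Φ ⟨y, hy⟩ l * c l) := by
          rw [hx, Finset.sum_mul]
          have h8 : ∀ s : Finset (Fin m), HasDegree C (∑ l ∈ s, (c l • a l) * y)
              (∑ l ∈ s, Φ ⟨y, hy⟩ l * c l) := by
            intro s
            induction s using Finset.induction_on with
            | empty => exact hasDegree_zero
            | insert l s hl ih =>
              rw [Finset.sum_insert hl, Finset.sum_insert hl]
              refine HasDegree.add ?_ ih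
              rw [smul_mul_assoc, mul_comm (Φ ⟨y, hy⟩ l)]
              exact HasDegree.smul _ (degL_spec (H := H) ⟨a l * y, hab _ (ha l) ⟨y, hy⟩⟩)
          exact h8 _
        rw [h6] at h7
        rw [htr _ _ h7, Rat.cast_zero, zero_mul]
      have h4 : H.tr X ∘ₗ LinearMap.mulLeft K (H.cl x) = 0 := by
        apply ext_gr H
        intro j b hb
        by_cases hj : j = 2 * ((X.dim : ℤ) - i)
        · subst hj
          exact hle hb
        · rw [LinearMap.comp_apply, LinearMap.mulLeft_apply, LinearMap.zero_apply]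
          have hxm : x ∈ C.gr X i := Submodule.sum_mem _ fun l _ => Submodule.smul_mem _ _ (ha l)
          exact tr_zero H (H.mul_mem (H.cl_mem hxm) hb) (by omega)
      intro b
      exact LinearMap.congr_fun h4 b
    rw [hclx] at hx0
    have h9 := (Fintype.linearIndependent_iff.1 hali) _ hx0
    apply LinearMap.ext
    intro y
    rw [hfc, LinearMap.zero_apply]
    apply Finset.sum_eq_zero
    intro l _
    have h10 : c l = 0 := by exact_mod_cast h9 l
    rw [h10, mul_zero]
  have hb : ∀ l : Fin m, ∃ b, Φ b = Pi.single l 1 := fun l => by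
    have h1 : (Pi.single l 1 : Fin m → ℚ) ∈ LinearMap.range Φ := by rw [hsurj]; trivial
    exact h1
  choose b hb' using hb
  refine ⟨m, a, fun l => (b l : C.A X), ha, fun l => (b l).2, fun j l => ?_, hasp, hali⟩
  have h1 := degL_spec (H := H) ⟨a j * (b l : C.A X), hab _ (ha j) (b l)⟩
  rw [← hΦ, hb'] at h1
  by_cases h : j = l
  · subst h
    rw [Pi.single_eq_same] at h1
    rw [if_pos rfl]
    exact h1
  · rw [Pi.single_eq_of_ne h] at h1
    rw [if_neg h]
    exact h1

end Pool.Agent.T9h37.MC
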