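import Pool.Agent.T9h37.MC.Bloch

/-!
# Murre's conjecture (C) for a variety whose cohomology is spanned by classes of cycles
-/

open CategoryTheory AlgebraicGeometry

set_option autoImplicit false

universe u v w

namespace Pool.Agent.T9h37.MC

open Pool.Agent.H914 Pool.Agent.H914.VarClass Pool.Agent.H914.VarClass.Obj Pool.Agent.W492.BB
  Pool.Agent.W550.Corr Pool.Agent.TH133 Pool.Agent.Y110 Pool.Agent.TH829.Kim
  Pool.Agent.TH829.Prime

set_option linter.unusedSectionVars false

variable {k : Type u} [Field k] {𝒱 : VarClass k} {C : TheoryData.{u, v, 0} 𝒱 ℚ}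
  [hC : IsChowProj C] {K : Type w} [Field K]
  {H : WeilTheoryData.{u, v, w} C K} [hH : IsWeilProj H] {X Y Z W : 𝒱.Obj}

include hC hH

/-- If the cycle class map is injective then all filtrations agree. -/
theorem murreC_of_injective (h : ∀ (i : ℕ) (x : C.A X), C.Deg i x → H.cl x = 0 → x = 0) :
    MurreC H X := by
  have key : ∀ P : ℕ → Cor C X, IsCK H X P → ∀ (i j : ℕ) (x : C.A X), x ∈ C.gr X i →
      actC C X (P j) x = if 2 * i = j then x else 0 := by
    intro P hP i j x hx
    have h1 : H.cl (actC C X (P j) x) = if 2 * i = j then H.cl x else 0 := by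
      have h2 := hP.actH_eq' j (2 * i) (H.cl_mem hx)
      have h3 : H.cl (actC C X (P j) x) = actH C X H (P j) (H.cl x) := cl_act H _ _
      rw [h3, h2]
      by_cases hij : 2 * i = j
      · rw [if_pos hij, if_pos (by omega)]
      · rw [if_neg hij, if_neg (by omega)]
    have hm : actC C X (P j) x ∈ C.gr X i := actC_mem (H := H) (hP.deg j) hx
    split_ifs with hij
    · rw [if_pos hij] at h1
      have h2 := h i (actC C X (P j) x - x) (Submodule.sub_mem _ hm hx)
        (by rw [map_sub, h1, sub_self])
      exact sub_eq_zero.1 h2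
    · rw [if_neg hij] at h1
      exact h i _ hm h1
  intro π π' hπ hπ' i n
  ext x
  rw [mem_fil (P := π) hπ, mem_fil (P := π') hπ']
  constructor
  · rintro ⟨hx, h1⟩
    refine ⟨hx, fun j hj => ?_⟩
    rw [key π' hπ' i j x hx, ← key π hπ i j x hx]
    exact h1 j hj
  · rintro ⟨hx, h1⟩
    refine ⟨hx, fun j hj => ?_⟩
    rw [key π hπ i j x hx, ← key π' hπ' i j x hx]
    exact h1 j hj

lemma span_alg (hA : ∀ i : ℤ, Alg H X i) (hodd : ∀ m : ℤ, Odd m → H.gr X m = ⊥) (m : ℤ) :
    H.gr X m ≤ Submodule.span K {a | ∃ (i : ℤ) (x : C.A X), m = 2 * i ∧ C.Deg i x ∧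
      H.cl x = a} := by
  rcases Int.even_or_odd m with hm | hm
  · obtain ⟨i, hi⟩ := hm
    rw [← two_mul] at hi
    subst hi
    refine (hA i).trans (Submodule.span_mono ?_)
    rintro _ ⟨x, hx, rfl⟩
    exact ⟨i, x, rfl, hx, rfl⟩
  · rw [hodd m hm]
    exact bot_le

/-- A Chow-Kunneth decomposition of a variety with algebraic cohomology, whose components of odd
degree are zero. -/
theorem exists_ck (hB : ∀ i : ℤ, Alg H X i) (ho : ∀ m : ℤ, Odd m → H.gr X m = ⊥) :
    ∃ P : ℕ → Cor C X, IsCK H X P ∧ ∀ j, Odd j → P j = 0 := by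
  have hA := span_alg hB ho
  have hch : ∀ i : ℕ, ∃ (m : ℕ) (a b : Fin m → C.A X),
    (∀ l, a l ∈ C.gr X i) ∧ (∀ l, b l ∈ C.gr X ((X.dim : ℤ) - i)) ∧
    (∀ j l, HasDegree C (a j * b l) (if j = l then 1 else 0)) ∧
    H.gr X (2 * i) ≤ Submodule.span K (Set.range fun l => H.cl (a l)) := by
    intro i
    obtain ⟨m, a, b, h1, h2, h3, h4, -⟩ := exists_dual ⟨hB i, hB ((X.dim : ℤ) - i)⟩
    exact ⟨m, a, b, h1, h2, h3, h4⟩
  choose m a b ha hb hab hsp using hch
  let e : ℕ → Cor C X := fun i => dualProj (a i) (b i)
  have hem : ∀ i, e i ∈ cor0 C X := fun i => dualProj_mem (H := H) (ha i) (hb i)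
  have hee : ∀ i, e i * e i = e i := by
    intro i
    have h := dualProj_sandwich (H := H) (ha i) (hb i) (hab i) (cor0 C X).one_mem
      (fun l => by rw [map_one]; rfl)
    rw [mul_one] at h
    exact h
  have hne : ∀ i j, i ≠ j → e i * e j = 0 := by
    intro i j hij
    have h := dualProj_mul (H := H) (a j) (b j) (a i) (b i) (fun _ _ => 0) (fun p q => by
      refine hasDegree_of_ne (H := H) (C.mul_mem (ha j p) (hb i q)) ?_
      have : (j : ℤ) ≠ i := by exact_mod_cast (Ne.symm hij)
      omega)
    show dualProj (a i) (b i) * dualProj (a j) (b j) = 0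
    rw [h]
    apply Finset.sum_eq_zero
    intro p _
    apply Finset.sum_eq_zero
    intro q _
    exact zero_smul _ _
  have hout : ∀ i, X.dim < i → e i = 0 := by
    intro i hi
    show (∑ l, C.ext (b i l) (a i l)) = 0
    apply Finset.sum_eq_zero
    intro l _
    rw [hC.gr_top X i _ (ha i l) (by exact_mod_cast hi), TheoryData.ext_zero_right]
  have hact : ∀ (i : ℕ) (n : ℤ) (v : H.A X), v ∈ H.gr X n →
      actH C X H (e i) v = if n = 2 * i then v else 0 := by
    intro i n v hv
    split_ifs with hn
    · subst hn
      exact dualProj_actH (H := H) (ha i) (hb i) (hab i) (hsp i) hv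
    · have h1 : H.gr X n ≤ LinearMap.ker (actH C X H (e i)) := by
        refine (hA n).trans (Submodule.span_le.2 ?_)
        rintro _ ⟨j, x, hj, hx, rfl⟩
        rw [SetLike.mem_coe, LinearMap.mem_ker]
        have h2 : H.cl (actC C X (e i) x) = actH C X H (e i) (H.cl x) := cl_act H _ _
        rw [← h2, dualProj_act_ne (H := H) (ha i) (hb i) (j := j) (by omega) hx, map_zero]
      exact h1 hv
  -- the components
  let E : ℕ → Cor C X := fun j => if Even j then e (j / 2) else 0
  have hEm : ∀ j, E j ∈ cor0 C X := by
    intro j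
    show (if Even j then e (j / 2) else 0) ∈ cor0 C X
    split_ifs
    · exact hem _
    · exact (cor0 C X).zero_mem
  have hEE : ∀ i j, E i * E j = if i = j then E i else 0 := by
    intro i j
    show (if Even i then e (i / 2) else 0) * (if Even j then e (j / 2) else 0) =
      if i = j then (if Even i then e (i / 2) else 0) else 0
    by_cases hi : Even i
    · by_cases hj : Even j
      · rw [if_pos hi, if_pos hj]
        by_cases hij : i = j
        · subst hij
          rw [if_pos rfl, hee]
        · rw [if_neg hij, hne _ _ (by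
            obtain ⟨p, hp⟩ := hi
            obtain ⟨q, hq⟩ := hj
            omega)]
      · rw [if_neg hj, mul_zero]
        by_cases hij : i = j
        · exact absurd (hij ▸ hi) hj
        · rw [if_neg hij]
    · rw [if_neg hi, zero_mul, ite_self]
  have hEout : ∀ j, 2 * X.dim < j → E j = 0 := by
    intro j hj
    show (if Even j then e (j / 2) else 0) = 0
    split_ifs with hje
    · obtain ⟨r, hr⟩ := hje
      exact hout _ (by omega)
    · rfl
  have hEact : ∀ (j : ℕ) (n : ℤ) (v : H.A X), v ∈ H.gr X n →
      actH C X H (E j) v = if n = j then v else 0 := by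
    intro j n v hv
    show actH C X H (if Even j then e (j / 2) else 0) v = if n = j then v else 0
    by_cases hj : Even j
    · rw [if_pos hj, hact _ n v hv]
      obtain ⟨p, hp⟩ := hj
      by_cases hn : n = j
      · rw [if_pos hn, if_pos (by omega)]
      · rw [if_neg hn, if_neg (by omega)]
    · rw [if_neg hj, map_zero, LinearMap.zero_apply]
      by_cases hn : n = j
      · rw [if_pos hn]
        have h1 : H.gr X n ≤ ⊥ := by
          refine (hA n).trans (Submodule.span_le.2 ?_)
          rintro _ ⟨i, x, hi, -, -⟩
          exfalso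
          apply hj
          rw [hn] at hi
          exact (Int.even_coe_nat j).1 ⟨i, by omega⟩
        exact ((Submodule.mem_bot K).1 (h1 hv)).symm
      · rw [if_neg hn]
  set p : Cor C X := 1 - ∑ j ∈ Finset.range (2 * X.dim + 1), E j with hp
  have hpm : p ∈ cor0 C X := (cor0 C X).sub_mem (cor0 C X).one_mem
    (Subalgebra.sum_mem _ fun j _ => hEm j)
  have hpE : ∀ j, p * E j = 0 := by
    intro j
    rw [hp, sub_mul, one_mul, Finset.sum_mul]
    simp only [hEE]
    by_cases hj : j ≤ 2 * X.dim
    · rw [Finset.sum_eq_single j]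
      · rw [if_pos rfl, sub_self]
      · intro l _ hl
        rw [if_neg hl]
      · intro h
        exact absurd (Finset.mem_range.2 (by omega)) h
    · rw [hEout j (by omega), zero_sub, neg_eq_zero]
      apply Finset.sum_eq_zero
      intro l hl
      rw [Finset.mem_range] at hl
      rw [if_neg (by omega)]
  have hEp : ∀ j, E j * p = 0 := by
    intro j
    rw [hp, mul_sub, mul_one, Finset.mul_sum]
    simp only [hEE]
    by_cases hj : j ≤ 2 * X.dim
    · rw [Finset.sum_eq_single j]
      · rw [if_pos rfl, sub_self]
      · intro l _ hl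
        rw [if_neg (Ne.symm hl)]
      · intro h
        exact absurd (Finset.mem_range.2 (by omega)) h
    · rw [hEout j (by omega), zero_sub, neg_eq_zero]
      apply Finset.sum_eq_zero
      intro l hl
      rw [Finset.mem_range] at hl
      rw [if_neg (by omega)]
  have hpp : p * p = p := by
    conv_lhs => rw [hp]
    rw [← hp, sub_mul, one_mul, Finset.sum_mul, Finset.sum_eq_zero (fun j _ => hEp j), sub_zero]
  have hpact : ∀ v : H.A X, actH C X H p v = 0 := by
    have h0 : actH C X H p = 0 := by
      apply ext_gr H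
      intro n v hv
      rw [hp, map_sub, map_one, map_sum, LinearMap.sub_apply, LinearMap.sum_apply,
        LinearMap.zero_apply, sub_eq_zero]
      rw [Finset.sum_congr rfl fun j _ => hEact j n v hv]
      show v = _
      by_cases hv0 : v = 0
      · rw [hv0]
        simp
      · obtain ⟨q, rfl⟩ := Int.eq_ofNat_of_zero_le (nonneg_of_mem H hv hv0)
        have hq : q ≤ 2 * X.dim := by
          by_contra h
          have h2 := gr_top H (X := X) (i := (q : ℤ)) (by omega)
          rw [h2] at hv
          exact hv0 ((Submodule.mem_bot _).1 hv)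
        rw [Finset.sum_eq_single q]
        · simp
        · intro b _ hb
          rw [if_neg (by exact_mod_cast Ne.symm hb)]
        · intro h
          exact absurd (Finset.mem_range.2 (by omega)) h
    intro v
    rw [h0]
    rfl
  refine ⟨fun j => E j + (if j = 0 then p else 0), ?_, ?_⟩
  · apply isCK_of
    · intro j
      refine (cor0 C X).add_mem (hEm j) ?_
      split_ifs
      · exact hpm
      · exact (cor0 C X).zero_mem
    · intro j hj
      show E j + (if j = 0 then p else 0) = 0
      rw [hEout j hj, if_neg (by omega), add_zero]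
    · intro i j
      show (E i + (if i = 0 then p else 0)) * (E j + (if j = 0 then p else 0)) =
        if i = j then (E i + (if i = 0 then p else 0)) else 0
      have h1 : ∀ j, E i * (if j = 0 then p else 0) = 0 := by
        intro j; split_ifs
        · exact hEp i
        · exact mul_zero _
      have h2 : ∀ i, (if i = 0 then p else 0) * E j = 0 := by
        intro i; split_ifs
        · exact hpE j
        · exact zero_mul _
      rw [mul_add, add_mul, add_mul, hEE, h1, h2, add_zero, zero_add]
      by_cases hij : i = j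
      · subst hij
        rw [if_pos rfl, if_pos rfl]
        split_ifs
        · rw [hpp]
        · rw [mul_zero]
      · rw [if_neg hij, if_neg hij, zero_add]
        by_cases hi : i = 0
        · rw [if_neg (show j ≠ 0 by omega), mul_zero]
        · rw [if_neg hi, zero_mul]
    · rw [Finset.sum_add_distrib, Finset.sum_ite_eq', if_pos (Finset.mem_range.2 (by omega)), hp]
      abel
    · intro j n v hv
      show actH C X H (E j + (if j = 0 then p else 0)) v = _
      have h1 : actH C X H (if j = 0 then p else 0) v = 0 := by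
        split_ifs
        · exact hpact v
        · rw [map_zero]; rfl
      rw [map_add, LinearMap.add_apply, h1, add_zero]
      exact hEact j n v hv
  · intro j hj
    show E j + (if j = 0 then p else 0) = 0
    have h1 : E j = 0 := if_neg (Nat.not_even_iff_odd.2 hj)
    have h2 : j ≠ 0 := by
      rintro rfl
      simp at hj
    rw [h1, if_neg h2, add_zero]

/-- **(C) for a variety with algebraic cohomology.** -/
theorem murreC_iff (hA : ∀ i : ℤ, Alg H X i) (ho : ∀ m : ℤ, Odd m → H.gr X m = ⊥) :
    MurreC H X ↔ ∀ (i : ℕ) (x : C.A X), C.Deg i x → H.cl x = 0 → x = 0 := by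
  refine ⟨fun h i x hx hx0 => ?_, murreC_of_injective⟩
  obtain ⟨P, hP, hodd⟩ := exists_ck hA ho
  have h1 : x = ∑ l ∈ Finset.range (2 * X.dim + 1), actC C X (P l) x := by
    have h2 : actC C X (∑ l ∈ Finset.range (2 * X.dim + 1), P l) x = x := by
      rw [hP.sum_eq, map_one]
      rfl
    rw [map_sum, LinearMap.sum_apply] at h2
    exact h2.symm
  rw [h1]
  apply Finset.sum_eq_zero
  intro l _
  rcases Nat.even_or_odd l with hl | hl
  · obtain ⟨q, rfl⟩ := hl
    rw [← two_mul]
    have h3 := alg_block h hP ⟨hA q, hA ((X.dim : ℤ) - q)⟩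
    by_cases hq : i = q
    · subst hq
      exact h3.2 x hx hx0
    · exact h3.1 i hq x hx
  · rw [hodd l hl, map_zero]
    rfl

end Pool.Agent.T9h37.MC
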