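import Pool.Agent.Y110.Kf
import Pool.Agent.TH133.Murre

/-!
# Murre's conjecture (C), phantoms and Kimura finiteness
-/

open CategoryTheory AlgebraicGeometry

set_option autoImplicit false

universe u v w

namespace Pool.Agent.T9h37.MC

open Pool.Agent.H914 Pool.Agent.H914.VarClass Pool.Agent.H914.VarClass.Obj Pool.Agent.W492.BB
  Pool.Agent.W550.Corr Pool.Agent.TH133 Pool.Agent.Y110 Pool.Agent.TH829.Kim

set_option linter.unusedSectionVars false

variable {k : Type u} [Field k] {𝒱 : VarClass k} {C : TheoryData.{u, v, 0} 𝒱 ℚ}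
  [hC : IsChowProj C] {K : Type w} [Field K]
  {H : WeilTheoryData.{u, v, w} C K} [hH : IsWeilProj H] {X Y Z W : 𝒱.Obj}

include hC hH

/-- A self-correspondence which is homologically trivial acts as zero on the cohomology. -/
lemma actH_zero_of_cl {γ : C.A (X.prod X)} (h : H.cl γ = 0) (a : H.A X) :
    H.act (H.cl γ) a = 0 := by
  rw [h]
  exact TheoryData.act_zero (T := H.toTheoryData) a

/-- Correspondences from `h^j` to `h^b` vanish for `j < b` if the first half of (B) holds for
`X × X`. -/
lemma tri_zero (hB : MurreB0 H (X.prod X)) {P Q : ℕ → Cor C X} (hP : IsCK H X P)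
    (hQ : IsCK H X Q) {j b : ℕ} (hjb : j < b) {γ : Cor C X} (hγ : γ ∈ cor0 C X) :
    Q b * γ * P j = 0 := by
  have h := comp_zero_of_B0 hB (π := P) (ρ := Q) hP hQ (i := X.dim) (j := j) (b := b)
    (γ := (γ : C.A (X.prod X))) hγ (by omega)
  have h2 : Q b * γ * P j = (C.comp (C.comp (P j) γ) (Q b) : C.A (X.prod X)) := by
    rw [mul_assoc]
    rfl
  rw [h2]
  exact h

/-- A modified Chow-Kunneth decomposition: the phantom idempotent `q` below `P i` is moved to
`P s`. -/
noncomputable def move (P : ℕ → Cor C X) (q : Cor C X) (i s : ℕ) (j : ℕ) : Cor C X :=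
  if j = i then P i - q else if j = s then P s + q else P j

lemma move_isCK {P : ℕ → Cor C X} (hP : IsCK H X P) {q : Cor C X} (hq : q ∈ cor0 C X)
    (hcl : H.cl (q : C.A (X.prod X)) = 0) (hqq : q * q = q) {i s : ℕ} (his : i ≠ s)
    (hi : i ≤ 2 * X.dim) (hs : s ≤ 2 * X.dim) (h1 : P i * q = q) (h2 : q * P i = q) :
    IsCK H X (move P q i s) := by
  have hz1 : ∀ j, j ≠ i → P j * q = 0 := by
    intro j hj
    rw [← h1, ← mul_assoc, hP.mul_eq, if_neg hj, zero_mul]
  have hz2 : ∀ j, j ≠ i → q * P j = 0 := by
    intro j hj
    rw [← h2, mul_assoc, hP.mul_eq, if_neg (Ne.symm hj), mul_zero]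
  have hact : ∀ a : H.A X, actH C X H q a = 0 := fun a => actH_zero_of_cl hcl a
  have hm : ∀ i, P i ∈ cor0 C X := hP.deg
  apply isCK_of
  · intro j
    unfold move
    split_ifs
    · exact (cor0 C X).sub_mem (hm i) hq
    · exact (cor0 C X).add_mem (hm s) hq
    · exact hm j
  · intro j hj
    unfold move
    rw [if_neg (by omega), if_neg (by omega)]
    exact hP.out j hj
  · intro a b
    unfold move
    have hii : P i * P i = P i := by rw [hP.mul_eq, if_pos rfl]
    have hss : P s * P s = P s := by rw [hP.mul_eq, if_pos rfl]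
    have hsi : P s * P i = 0 := by rw [hP.mul_eq, if_neg (Ne.symm his)]
    have his' : P i * P s = 0 := by rw [hP.mul_eq, if_neg his]
    have hsq := hz1 s (Ne.symm his)
    have hqs := hz2 s (Ne.symm his)
    by_cases hai : a = i
    · subst hai
      rw [if_pos rfl]
      by_cases hbi : b = a
      · subst hbi
        rw [if_pos rfl, if_pos rfl]
        simp only [mul_sub, sub_mul, h1, h2, hqq, hii]
        abel
      · rw [if_neg hbi, if_neg (Ne.symm hbi)]
        by_cases hbs : b = s
        · subst hbs
          rw [if_pos rfl]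
          simp only [mul_add, sub_mul, h1, hqq, his', hqs]
          abel
        · rw [if_neg hbs, sub_mul, hP.mul_eq, if_neg (Ne.symm hbi), hz2 b hbi, sub_zero]
    · rw [if_neg hai]
      by_cases has : a = s
      · subst has
        rw [if_pos rfl]
        by_cases hbi : b = i
        · subst hbi
          rw [if_pos rfl, if_neg hai]
          simp only [mul_sub, add_mul, h2, hqq, hsi, hsq]
          abel
        · rw [if_neg hbi]
          by_cases hbs : b = a
          · subst hbs
            rw [if_pos rfl, if_pos rfl]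
            simp only [mul_add, add_mul, hsq, hqs, hqq, hss]
            abel
          · rw [if_neg hbs, if_neg (Ne.symm hbs), add_mul, hP.mul_eq, if_neg (Ne.symm hbs),
              hz2 b hbi, add_zero]
      · rw [if_neg has]
        by_cases hbi : b = i
        · subst hbi
          rw [if_pos rfl, if_neg hai, mul_sub, hP.mul_eq, if_neg hai, hz1 a hai, sub_zero]
        · rw [if_neg hbi]
          by_cases hbs : b = s
          · subst hbs
            rw [if_pos rfl, if_neg has, mul_add, hP.mul_eq, if_neg has, hz1 a hai, add_zero]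
          · rw [if_neg hbs, hP.mul_eq]
  · have e1 : ∀ j, move P q i s j = P j + ((if j = s then q else 0) - (if j = i then q else 0)) := by
      intro j
      unfold move
      by_cases hji : j = i
      · subst hji
        rw [if_pos rfl, if_neg his, if_pos rfl]
        abel
      · rw [if_neg hji, if_neg hji]
        by_cases hjs : j = s
        · subst hjs
          rw [if_pos rfl, if_pos rfl, sub_zero]
        · rw [if_neg hjs, if_neg hjs, sub_zero, add_zero]
    simp only [e1]
    rw [Finset.sum_add_distrib, hP.sum_eq, Finset.sum_sub_distrib, Finset.sum_ite_eq',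
      Finset.sum_ite_eq', if_pos (Finset.mem_range.2 (by omega)),
      if_pos (Finset.mem_range.2 (by omega)), sub_self, add_zero]
  · intro j m a ha
    unfold move
    split_ifs with h3 h4 h5 h6 h7
    · rw [map_sub, LinearMap.sub_apply, hact, sub_zero, hP.actH_eq' i m ha, if_pos (by rw [h4, h3])]
    · rw [map_sub, LinearMap.sub_apply, hact, sub_zero, hP.actH_eq' i m ha,
        if_neg (by rw [← h3]; exact h4)]
    · rw [map_add, LinearMap.add_apply, hact, add_zero, hP.actH_eq' s m ha, if_pos (by rw [h6, h5])]
    · rw [map_add, LinearMap.add_apply, hact, add_zero, hP.actH_eq' s m ha,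
        if_neg (by rw [← h5]; exact h6)]
    · rw [hP.actH_eq' j m ha, if_pos h7]
    · rw [hP.actH_eq' j m ha, if_neg h7]

end Pool.Agent.T9h37.MC
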