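import Pool.Agent.T9h37.MC.Main

/-!
# Conjugate Chow-Kunneth decompositions and the main equivalence
-/

open CategoryTheory AlgebraicGeometry

set_option autoImplicit false

universe u v w

namespace Pool.Agent.T9h37.MC

open Pool.Agent.H914 Pool.Agent.H914.VarClass Pool.Agent.H914.VarClass.Obj Pool.Agent.W492.BB
  Pool.Agent.W550.Corr Pool.Agent.TH133 Pool.Agent.Y110 Pool.Agent.TH829.Kim

set_option linter.unusedSectionVars false

variable {k : Type u} [Field k] {𝒱 : VarClass k}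

/-- `X` has a Chow-Kunneth decomposition. -/
def HasCK {C : TheoryData.{u, v, 0} 𝒱 ℚ} {K : Type w} [Field K]
    (H : WeilTheoryData.{u, v, w} C K) (X : 𝒱.Obj) : Prop :=
  ∃ π : ℕ → C.A (X.prod X), IsCK H X π

/-- `X` has at least one Chow-Kunneth decomposition with `F^0 CH^i(X) = CH^i(X)` for all `i`. -/
def HasB0 {C : TheoryData.{u, v, 0} 𝒱 ℚ} {K : Type w} [Field K]
    (H : WeilTheoryData.{u, v, w} C K) (X : 𝒱.Obj) : Prop :=
  ∃ π : ℕ → C.A (X.prod X), IsCK H X π ∧ ∀ i : ℕ, ckFil C π i 0 = C.gr X i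

variable {C : TheoryData.{u, v, 0} 𝒱 ℚ}
  [hC : IsChowProj C] {K : Type w} [Field K]
  {H : WeilTheoryData.{u, v, w} C K} [hH : IsWeilProj H] {X Y Z W : 𝒱.Obj}

include hC hH

lemma sandwich (s p t : Cor C X) : s * p * t = (C.comp (C.comp t p) s : C.A (X.prod X)) := by
  rw [mul_assoc]
  rfl

/-- If `F^0 = CH` holds for one decomposition, it holds for the conjugate ones. -/
lemma b0_of_conj {P Q : ℕ → Cor C X} (hP : IsCK H X P) (hQ : IsCK H X Q)
    (hB : ∀ i : ℕ, ckFil C P i 0 = C.gr X i) {s t : Cor C X}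
    (ht : t ∈ cor0 C X) (hc : ∀ j, Q j = s * P j * t) (i : ℕ) :
    ckFil C Q i 0 = C.gr X i := by
  ext x
  rw [hQ.mem_ckFil]
  refine ⟨fun h => h.1, fun hx => ⟨hx, fun j hj => ?_⟩⟩
  have htx : C.act (X := X) (Y := X) t x ∈ C.gr X i := act_mem0 C ht hx
  have h1 : C.act (X := X) (Y := X) t x ∈ ckFil C P i 0 := by rw [hB]; exact htx
  rw [hP.mem_ckFil] at h1
  have h2 := h1.2 j hj
  have h3 : actC C X (Q j) x = 0 := by
    rw [hc j, map_mul, map_mul, Module.End.mul_apply, Module.End.mul_apply]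
    have h4 : actC C X (P j) (actC C X t x) = 0 := h2
    rw [h4, map_zero]
  exact h3

/-- If homologically trivial self-correspondences are nilpotent, all Chow-Kunneth decompositions are
conjugate. -/
lemma conj_of_nil (hnil : ∀ x : R0 C X, H.cl (toA x) = 0 → IsNilpotent x) {P Q : ℕ → Cor C X}
    (hP : IsCK H X P) (hQ : IsCK H X Q) :
    ∃ s t : Cor C X, s ∈ cor0 C X ∧ t ∈ cor0 C X ∧ s * t = 1 ∧ t * s = 1 ∧
      (∀ a : H.A X, actH C X H s a = a) ∧ ∀ j, Q j = s * P j * t := by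
  have hPm : ∀ i, P i ∈ cor0 C X := hP.deg
  have hQm : ∀ i, Q i ∈ cor0 C X := hQ.deg
  set s : Cor C X := ∑ i ∈ Finset.range (2 * X.dim + 1), Q i * P i with hsdef
  have hs : s ∈ cor0 C X := Subalgebra.sum_mem _ fun i _ => (cor0 C X).mul_mem (hQm i) (hPm i)
  have hact : ∀ a : H.A X, actH C X H s a = a := by
    intro a
    have h0 : actH C X H s = 1 := by
      apply ext_gr H
      intro m a ha
      have h1 : actH C X H s a = ∑ i ∈ Finset.range (2 * X.dim + 1),
          (if m = i then a else 0) := by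
        rw [hsdef, map_sum, LinearMap.sum_apply]
        apply Finset.sum_congr rfl
        intro i _
        rw [map_mul, Module.End.mul_apply, hP.actH_eq' i m ha]
        split_ifs with h2
        · rw [hQ.actH_eq' i m ha, if_pos h2]
        · rw [map_zero]
      rw [h1]
      by_cases ha0 : a = 0
      · rw [ha0]
        simp
      · obtain ⟨q, rfl⟩ := Int.eq_ofNat_of_zero_le (nonneg_of_mem H ha ha0)
        have hq : q ≤ 2 * X.dim := by
          by_contra h
          have h2 := gr_top H (X := X) (i := (q : ℤ)) (by omega)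
          rw [h2] at ha
          exact ha0 ((Submodule.mem_bot _).1 ha)
        rw [Finset.sum_eq_single q]
        · simp
        · intro b _ hb
          rw [if_neg (by exact_mod_cast Ne.symm hb)]
        · intro h
          exact absurd (Finset.mem_range.2 (by omega)) h
    rw [h0]
    rfl
  have hcl : H.cl ((1 - s : Cor C X) : C.A (X.prod X)) = 0 := by
    apply hom_zero_of_act
    intro a
    have h : actH C X H (1 - s) a = 0 := by
      rw [map_sub, LinearMap.sub_apply, hact, map_one]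
      exact sub_self _
    exact h
  let n : R0 C X := ⟨1 - s, (cor0 C X).sub_mem (cor0 C X).one_mem hs⟩
  have hn : IsNilpotent n := hnil n hcl
  have hu : IsUnit (1 - n) := IsNilpotent.isUnit_one_sub hn
  obtain ⟨u, hu⟩ := hu
  have hus : ((u : R0 C X) : Cor C X) = s := by
    rw [hu]
    show (1 : Cor C X) - (1 - s) = s
    abel
  set t : Cor C X := ((↑u⁻¹ : R0 C X) : Cor C X) with htdef
  have ht : t ∈ cor0 C X := (↑u⁻¹ : R0 C X).2
  have hst : s * t = 1 := by
    rw [← hus]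
    have h := congrArg (Subtype.val) (u.mul_inv)
    exact h
  have hts : t * s = 1 := by
    rw [← hus]
    have h := congrArg (Subtype.val) (u.inv_mul)
    exact h
  refine ⟨s, t, hs, ht, hst, hts, hact, fun j => ?_⟩
  have h1 : Q j * s = s * P j := by
    rw [hsdef, Finset.mul_sum, Finset.sum_mul]
    apply Finset.sum_congr rfl
    intro i _
    rw [← mul_assoc, hQ.mul_eq, mul_assoc, hP.mul_eq]
    by_cases h : j = i
    · subst h
      rw [if_pos rfl, if_pos rfl]
    · rw [if_neg h, if_neg (Ne.symm h), zero_mul, mul_zero]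
  rw [← h1, mul_assoc, hst, mul_one]

/-- The equivalence. -/
theorem tfae (hg : GradedCommutative H) :
    List.TFAE [∀ X : 𝒱.Obj, MurreC H X,
      ∀ X : 𝒱.Obj, MurreB0 H X,
      ∀ X : 𝒱.Obj, HasCK H X → NoPhantoms H X ∧ HasB0 H X,
      ∀ X : 𝒱.Obj, HasCK H X → IsKimuraFinite C (ratFam C) X ∧ HasB0 H X,
      ∀ X : 𝒱.Obj, HasCK H X → UniqueUpToConjugation H X ∧ HasB0 H X] := by
  tfae_have 1 → 2 := fun h X => murreB0_of_C0 X fun π π' h1 h2 i => h X π π' h1 h2 i 0
  tfae_have 2 → 1 := fun h X => murreC_of_B0 X (h _)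
  tfae_have 2 → 3 := by
    rintro h X ⟨π, hπ⟩
    exact ⟨noPhantoms_of_B0 (h _) hπ, π, hπ, h X π hπ⟩
  tfae_have 3 → 4 := by
    rintro h X ⟨π, hπ⟩
    exact ⟨isKimuraFinite_of_noPhantoms hg hπ fun Y hY => (h Y hY).1, (h X ⟨π, hπ⟩).2⟩
  tfae_have 4 → 5 := by
    rintro h X hX
    obtain ⟨h1, h2⟩ := h X hX
    refine ⟨?_, h2⟩
    intro π π' hπ hπ'
    obtain ⟨s, t, a1, a2, a3, a4, a5, a6⟩ := conj_of_nil (H := H)
      (fun x hx => isNilpotent_of_kimura (H := H) h1 hx) hπ hπ'
    exact ⟨s, t, a1, a2, a4, a3, a5, fun i => (a6 i).trans (sandwich (H := H) s (π i) t)⟩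
  tfae_have 5 → 2 := by
    intro h X π hπ i
    obtain ⟨h1, ρ, hρ, hB⟩ := h X ⟨π, hπ⟩
    obtain ⟨s, t, a1, a2, a3, a4, a5, a6⟩ := h1 ρ π hρ hπ
    exact b0_of_conj (P := ρ) (Q := π) hρ hπ hB (s := s) (t := t) a2
      (fun j => (a6 j).trans (sandwich (H := H) s (ρ j) t).symm) i
  tfae_finish

end Pool.Agent.T9h37.MC
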