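import Pool.Agent.T9h37.MC.Alg
import Pool.Agent.T9h37.MC.Conj

/-!
# Murre's conjecture (C) and algebraic cohomology groups
-/

open CategoryTheory AlgebraicGeometry

set_option autoImplicit false

universe u v w

namespace Pool.Agent.T9h37.MC

open Pool.Agent.H914 Pool.Agent.H914.VarClass Pool.Agent.H914.VarClass.Obj Pool.Agent.W492.BB
  Pool.Agent.W550.Corr Pool.Agent.TH133 Pool.Agent.Y110 Pool.Agent.TH829.Kim
  Pool.Agent.TH829.Prime

set_option linter.unusedSectionVars false

variable {k : Type u} [Field k] {𝒱 : VarClass k}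

variable {C : TheoryData.{u, v, 0} 𝒱 ℚ}
  [hC : IsChowProj C] {K : Type w} [Field K]
  {H : WeilTheoryData.{u, v, w} C K} [hH : IsWeilProj H] {X Y Z W : 𝒱.Obj}

include hC hH

/-- The projector attached to dual bases. -/
noncomputable def dualProj {m : ℕ} (a b : Fin m → C.A X) : Cor C X := ∑ l, C.ext (b l) (a l)

lemma comp_ext_left (v : C.A X) (α : C.A Y) (Γ : C.A (Y.prod Z)) :
    C.comp (C.ext v α) Γ = C.ext v (C.act Γ α) := by
  rw [comp_eq_extR, C.extR_ext]
  intro c
  exact ch_comm C _ _

lemma mul_dualProj {m : ℕ} (a b : Fin m → C.A X) (p : Cor C X) :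
    p * dualProj a b = dualProj (fun l => actC C X p (a l)) b := by
  have h : ∀ Γ : C.A (X.prod X), C.comp (∑ l, C.ext (b l) (a l)) Γ =
      ∑ l, C.ext (b l) (C.act Γ (a l)) := by
    intro Γ
    rw [sum_comp]
    exact Finset.sum_congr rfl fun l _ => comp_ext_left (H := H) _ _ _
  exact h p

lemma dualProj_mul {m n : ℕ} (a b : Fin m → C.A X) (a' b' : Fin n → C.A X)
    (g : Fin m → Fin n → ℚ) (hg : ∀ j l, HasDegree C (a j * b' l) (g j l)) :
    dualProj a' b' * dualProj a b = ∑ j, ∑ l, g j l • C.ext (b j) (a' l) := by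
  show C.comp (X := X) (Y := X) (Z := X) (∑ l, C.ext (b l) (a l)) (∑ l, C.ext (b' l) (a' l)) = _
  rw [sum_comp]
  apply Finset.sum_congr rfl
  intro j _
  rw [comp_sum]
  exact Finset.sum_congr rfl fun l _ => comp_ext_ext (hg j l)

lemma hasDegree_of_ne {x : C.A X} {n : ℤ} (hx : x ∈ C.gr X n) (hn : n ≠ X.dim) :
    HasDegree C x 0 := by
  intro Y
  rw [zero_smul]
  rcases lt_or_gt_of_ne hn with h | h
  · constructor
    · have h2 := C.push_mem (snd X Y) (C.pull_mem (fst X Y) hx)
      rw [C.gr_neg Y _ (by rw [dim_prod]; push_cast; omega)] at h2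
      exact (Submodule.mem_bot _).1 h2
    · have h2 := C.push_mem (fst Y X) (C.pull_mem (snd Y X) hx)
      rw [C.gr_neg Y _ (by rw [dim_prod]; push_cast; omega)] at h2
      exact (Submodule.mem_bot _).1 h2
  · rw [hC.gr_top X n _ hx h, map_zero, map_zero, map_zero, map_zero]
    exact ⟨rfl, rfl⟩

section dual

variable {i : ℕ} {m : ℕ} {a b : Fin m → C.A X} (ha : ∀ l, a l ∈ C.gr X i)
  (hb : ∀ l, b l ∈ C.gr X ((X.dim : ℤ) - i))
  (hab : ∀ j l, HasDegree C (a j * b l) (if j = l then 1 else 0))

include ha hb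

lemma dualProj_mem : dualProj a b ∈ cor0 C X := by
  show (∑ l, C.ext (b l) (a l)) ∈ C.gr (X.prod X) X.dim
  apply Submodule.sum_mem
  intro l _
  have h := ext_mem (C := C) (H := H) (hb l) (ha l)
  rwa [sub_add_cancel] at h

lemma dualProj_act_ne {j : ℤ} (hj : j ≠ i) {x : C.A X} (hx : x ∈ C.gr X j) :
    actC C X (dualProj a b) x = 0 := by
  show C.act (∑ l, C.ext (b l) (a l)) x = 0
  rw [act_sum]
  apply Finset.sum_eq_zero
  intro l _
  exact act_ext_zero_of_lt (C.mul_mem (hb l) hx) (by omega)

lemma dualProj_act_zero {x : C.A X} (hx : x ∈ C.gr X i) (hx0 : H.cl x = 0) :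
    actC C X (dualProj a b) x = 0 := by
  show C.act (∑ l, C.ext (b l) (a l)) x = 0
  rw [act_sum]
  apply Finset.sum_eq_zero
  intro l _
  have h1 : b l * x ∈ C.gr X X.dim := by
    have h := C.mul_mem (hb l) hx
    rwa [sub_add_cancel] at h
  rw [act_ext' (hasDegree_zero_of_cl H h1 (by rw [map_mul, hx0, mul_zero])), zero_smul]

include hab

lemma dualProj_act (l : Fin m) : actC C X (dualProj a b) (a l) = a l := by
  show C.act (∑ l, C.ext (b l) (a l)) (a l) = a l
  rw [act_sum, Finset.sum_eq_single l]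
  · have h := hab l l
    rw [if_pos rfl, ch_comm C] at h
    rw [act_ext' h, one_smul]
  · intro j _ hj
    have h := hab l j
    rw [if_neg (Ne.symm hj), ch_comm C] at h
    rw [act_ext' h, zero_smul]
  · intro h
    exact absurd (Finset.mem_univ _) h

lemma dualProj_actH (hsp : H.gr X (2 * i) ≤ Submodule.span K (Set.range fun l => H.cl (a l)))
    {v : H.A X} (hv : v ∈ H.gr X (2 * i)) : actH C X H (dualProj a b) v = v := by
  have h1 : Submodule.span K (Set.range fun l => H.cl (a l)) ≤
      LinearMap.eqLocus (actH C X H (dualProj a b)) (1 : Module.End K (H.A X)) := by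
    rw [Submodule.span_le]
    rintro _ ⟨l, rfl⟩
    show actH C X H (dualProj a b) (H.cl (a l)) = H.cl (a l)
    conv_rhs => rw [← dualProj_act (H := H) ha hb hab l]
    exact (cl_act H _ _).symm
  exact h1 (hsp hv)

/-- Sandwiching a correspondence which acts as the identity on the cohomology classes. -/
lemma dualProj_sandwich {p : Cor C X} (hp : p ∈ cor0 C X)
    (hcl : ∀ l, H.cl (actC C X p (a l)) = H.cl (a l)) :
    dualProj a b * p * dualProj a b = dualProj a b := by
  rw [mul_assoc, mul_dualProj (H := H), dualProj_mul (H := H) (fun l => actC C X p (a l)) b a b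
    (fun j l => if j = l then 1 else 0)]
  · show _ = ∑ l, C.ext (b l) (a l)
    apply Finset.sum_congr rfl
    intro j _
    rw [Finset.sum_eq_single j]
    · rw [if_pos rfl, one_smul]
    · intro l _ hl
      rw [if_neg (Ne.symm hl), zero_smul]
    · intro h
      exact absurd (Finset.mem_univ _) h
  · intro j l
    have e1 : (i : ℤ) + ((X.dim : ℤ) - i) = X.dim := by ring
    refine hasDegree_of_cl (H := H) ?_ ?_ ?_ (hab j l)
    · have h := C.mul_mem (ha j) (hb l)
      rwa [e1] at h
    · have h := C.mul_mem (actC_mem (H := H) hp (ha j)) (hb l)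
      rwa [e1] at h
    · rw [map_mul, map_mul, hcl]

end dual

/-- An algebraic Kunneth component acts through its cohomology classes if (C) holds. -/
theorem alg_block (h : MurreC H X) {P : ℕ → Cor C X} (hP : IsCK H X P) {i : ℕ}
    (hA : Alg H X i ∧ Alg H X ((X.dim : ℤ) - i)) : (∀ j : ℕ, j ≠ i → ∀ x ∈ C.gr X j, actC C X (P (2 * i)) x = 0) ∧
      ∀ x ∈ C.gr X i, H.cl x = 0 → actC C X (P (2 * i)) x = 0 := by
  obtain ⟨m, a, b, ha, hb, hab, hsp, -⟩ := exists_dual hA
  set e : Cor C X := dualProj a b with he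
  have hem : e ∈ cor0 C X := dualProj_mem (H := H) ha hb
  set p : Cor C X := P (2 * i) with hp
  have hpm : p ∈ cor0 C X := hP.deg (2 * i)
  have hpp : p * p = p := by rw [hp, hP.mul_eq, if_pos rfl]
  have hpact : ∀ (n : ℤ) (v : H.A X), v ∈ H.gr X n → actH C X H p v = if n = 2 * i then v else 0 := by
    intro n v hv
    rw [hp, hP.actH_eq' (2 * i) n hv]
    push_cast
    rfl
  have hs : e * p * e = e := dualProj_sandwich (H := H) ha hb hab hpm fun l => by
    have h1 := hpact (2 * i) (H.cl (a l)) (H.cl_mem (ha l))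
    rw [if_pos rfl] at h1
    rw [← h1]
    conv_rhs => rw [h1, ← h1]
    exact cl_act H _ _
  set q : Cor C X := p - p * e * p with hq
  have hqm : q ∈ cor0 C X := (cor0 C X).sub_mem hpm
    ((cor0 C X).mul_mem ((cor0 C X).mul_mem hpm hem) hpm)
  have h1 : p * q = q := by
    rw [hq, mul_sub, hpp, ← mul_assoc, ← mul_assoc, hpp]
  have h2 : q * p = q := by
    rw [hq, sub_mul, hpp, mul_assoc, hpp]
  have h3 : (p * e * p) * (p * e * p) = p * e * p := by
    calc (p * e * p) * (p * e * p) = p * (e * (p * p) * e) * p := by simp only [mul_assoc]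
      _ = _ := by rw [hpp, hs]
  have hqq : q * q = q := by
    have h4 : q * (p * e * p) = 0 := by
      rw [hq, sub_mul, h3]
      rw [← mul_assoc, ← mul_assoc, hpp, sub_self]
    conv_lhs => rw [hq]
    rw [← hq, mul_sub, h2, h4, sub_zero]
  have hqcl : H.cl (q : C.A (X.prod X)) = 0 := by
    apply hom_zero_of_act
    have h4 : actH C X H q = 0 := by
      apply ext_gr H
      intro n v hv
      rw [LinearMap.zero_apply, hq, map_sub, LinearMap.sub_apply, map_mul, map_mul,
        Module.End.mul_apply, Module.End.mul_apply, hpact n v hv]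
      split_ifs with hn
      · subst hn
        rw [dualProj_actH (H := H) ha hb hab hsp hv, hpact _ v hv, if_pos rfl, sub_self]
      · rw [map_zero, map_zero, sub_zero]
    intro v
    exact LinearMap.congr_fun h4 v
  have key : ∀ (j : ℕ) (x : C.A X), x ∈ C.gr X j →
      actC C X p x = actC C X p (actC C X e (actC C X p x)) := by
    intro j x hx
    have h5 := phantom_act h hP hqm hqcl hqq h1 h2 hx
    rw [hq, map_sub, LinearMap.sub_apply, sub_eq_zero, actC_mul (H := H), actC_mul (H := H)] at h5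
    exact h5
  constructor
  · intro j hj x hx
    rw [key j x hx, dualProj_act_ne (H := H) ha hb (j := j) (by exact_mod_cast hj)
      (actC_mem (H := H) hpm hx), map_zero]
  · intro x hx hx0
    rw [key i x hx, dualProj_act_zero (H := H) ha hb (actC_mem (H := H) hpm hx), map_zero]
    have h6 : H.cl (actC C X p x) = actH C X H p (H.cl x) := cl_act H _ _
    rw [h6, hx0, map_zero]

end Pool.Agent.T9h37.MC
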