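import Pool.Agent.T9h37.MC.Main

/-!
# Functoriality and multiplicativity of the Chow-Kunneth filtrations
-/

open CategoryTheory AlgebraicGeometry

set_option autoImplicit false

universe u v w

namespace Pool.Agent.T9h37.MC

open Pool.Agent.H914 Pool.Agent.H914.VarClass Pool.Agent.H914.VarClass.Obj Pool.Agent.W492.BB
  Pool.Agent.W550.Corr Pool.Agent.TH133 Pool.Agent.Y110 Pool.Agent.TH829.Kim

set_option linter.unusedSectionVars false

section Defs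

variable {k : Type u} [Field k] {𝒱 : VarClass k} {C : TheoryData.{u, v, 0} 𝒱 ℚ}
  {K : Type w} [Field K] (H : WeilTheoryData.{u, v, w} C K)

/-- For all `X`, `Y` with Chow-Kunneth decompositions `π`, `ρ` and all correspondences
`Γ ∈ CH^(dim X + r)(X × Y)` one has `Γ_* F^n CH^i(X) ⊆ F^n CH^(i + r)(Y)`. -/
def StableCorr : Prop :=
  ∀ (X Y : 𝒱.Obj) (π : ℕ → C.A (X.prod X)) (ρ : ℕ → C.A (Y.prod Y)), IsCK H X π → IsCK H Y ρ →
    ∀ (r : ℤ) (Γ : C.A (X.prod Y)), C.Deg (X.dim + r) Γ → ∀ i j n : ℕ, (j : ℤ) = i + r →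
      ∀ x ∈ ckFil C π i n, C.act Γ x ∈ ckFil C ρ j n

/-- For all morphisms `f : X ⟶ Y` of varieties with Chow-Kunneth decompositions `π`, `ρ` one has
`f^* F^n CH^i(Y) ⊆ F^n CH^i(X)`. -/
def StablePull : Prop :=
  ∀ (X Y : 𝒱.Obj) (π : ℕ → C.A (X.prod X)) (ρ : ℕ → C.A (Y.prod Y)), IsCK H X π → IsCK H Y ρ →
    ∀ (f : X ⟶ Y) (i n : ℕ), ∀ y ∈ ckFil C ρ i n, C.up f y ∈ ckFil C π i n

/-- For all morphisms `f : X ⟶ Y` of varieties with Chow-Kunneth decompositions `π`, `ρ` one has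
`f_* F^n CH^i(X) ⊆ F^n CH^(i + dim Y - dim X)(Y)`. -/
def StablePush : Prop :=
  ∀ (X Y : 𝒱.Obj) (π : ℕ → C.A (X.prod X)) (ρ : ℕ → C.A (Y.prod Y)), IsCK H X π → IsCK H Y ρ →
    ∀ (f : X ⟶ Y) (i j n : ℕ), (j : ℤ) + X.dim = i + Y.dim →
      ∀ x ∈ ckFil C π i n, C.down f x ∈ ckFil C ρ j n

/-- For all `X` with Chow-Kunneth decompositions `π`, `ρ`, `σ` one has
`F^m CH^i(X) · F^n CH^j(X) ⊆ F^(m+n) CH^(i+j)(X)`, where the three filtrations are those of `π`,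
`ρ`, `σ`. -/
def StableMul : Prop :=
  ∀ (X : 𝒱.Obj) (π ρ σ : ℕ → C.A (X.prod X)), IsCK H X π → IsCK H X ρ → IsCK H X σ →
    ∀ i j m n : ℕ, ∀ x ∈ ckFil C π i m, ∀ y ∈ ckFil C ρ j n, C.mul x y ∈ ckFil C σ (i + j) (m + n)

end Defs

variable {k : Type u} [Field k] {𝒱 : VarClass k} {C : TheoryData.{u, v, 0} 𝒱 ℚ}
  [hC : IsChowProj C] {K : Type w} [Field K]
  {H : WeilTheoryData.{u, v, w} C K} [hH : IsWeilProj H] {X Y Z W : 𝒱.Obj}

include hC hH

lemma act_fil (hB : MurreB0 H (X.prod Y)) {π : ℕ → C.A (X.prod X)} {ρ : ℕ → C.A (Y.prod Y)}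
    (hπ : IsCK H X π) (hρ : IsCK H Y ρ) {r : ℤ} {Γ : C.A (X.prod Y)}
    (hΓ : Γ ∈ C.gr (X.prod Y) (X.dim + r)) {i j n : ℕ} (hij : (j : ℤ) = i + r) {x : C.A X}
    (hx : x ∈ ckFil C π i n) : C.act Γ x ∈ ckFil C ρ j n := by
  rw [hπ.mem_ckFil] at hx
  rw [hρ.mem_ckFil]
  refine ⟨hij ▸ act_mem' C hΓ hx.1, fun m hm => ?_⟩
  have h1 : x = ∑ l ∈ Finset.range (2 * X.dim + 1), C.act (π l) x := by
    rw [← act_sum, hπ.sum, act_dg]
  rw [h1, act_map_sum, act_map_sum]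
  apply Finset.sum_eq_zero
  intro l _
  by_cases hl : 2 * i + 1 - n ≤ l
  · rw [hx.2 l hl, TheoryData.act_map_zero, TheoryData.act_map_zero]
  · by_cases hneg : (X.dim : ℤ) + r < 0
    · have h2 := C.gr_neg (X.prod Y) _ hneg
      rw [h2, Submodule.mem_bot] at hΓ
      rw [hΓ, TheoryData.act_zero, TheoryData.act_map_zero]
    · obtain ⟨e, he⟩ := Int.eq_ofNat_of_zero_le (not_lt.1 hneg)
      rw [he] at hΓ
      have h2 := comp_zero_of_B0 hB hπ hρ (i := e) (j := l) (b := m) (γ := Γ) hΓ (by omega)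
      rw [← C.act_comp (π l) Γ, ← C.act_comp _ (ρ m), h2, TheoryData.act_zero]

lemma graph_mem (f : X ⟶ Y) : C.graph f ∈ C.gr (X.prod Y) (X.dim + ((Y.dim : ℤ) - X.dim)) := by
  have h := C.push_mem (Obj.lift (𝟙 X) f) (C.one_mem X)
  have e1 : (0 : ℤ) + 1 * (((X.prod Y).dim : ℤ) - (X.dim : ℤ)) =
      X.dim + ((Y.dim : ℤ) - X.dim) := by
    rw [dim_prod]; push_cast; ring
  rwa [e1] at h

lemma cograph_mem (f : X ⟶ Y) : C.cograph f ∈ C.gr (Y.prod X) (Y.dim + 0) := by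
  have h := C.push_mem (Obj.lift f (𝟙 X)) (C.one_mem X)
  have e1 : (0 : ℤ) + 1 * (((Y.prod X).dim : ℤ) - (X.dim : ℤ)) = Y.dim + 0 := by
    rw [dim_prod]; push_cast; ring
  rwa [e1] at h

lemma ext_fil {π : ℕ → C.A (X.prod X)} {ρ : ℕ → C.A (Y.prod Y)} (hπ : IsCK H X π)
    (hρ : IsCK H Y ρ) {i j m n : ℕ} {x : C.A X} {y : C.A Y} (hx : x ∈ ckFil C π i m)
    (hy : y ∈ ckFil C ρ j n) : C.ext x y ∈ ckFil C (prodCK C π ρ) (i + j) (m + n) := by
  rw [hπ.mem_ckFil] at hx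
  rw [hρ.mem_ckFil] at hy
  rw [(hπ.prod hρ).mem_ckFil]
  refine ⟨?_, fun l hl => ?_⟩
  · have h := ext_mem (C := C) (H := H) hx.1 hy.1
    push_cast
    exact h
  · unfold prodCK
    rw [act_sum]
    apply Finset.sum_eq_zero
    intro p hp
    rw [Finset.mem_range] at hp
    rw [act_tens_ext C _ _ (fun f c => ch_comm C _ _)]
    by_cases h1 : 2 * i + 1 - m ≤ p
    · rw [hx.2 p h1, TheoryData.ext_zero_left]
    · rw [hy.2 (l - p) (by omega), TheoryData.ext_zero_right]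

/-- The fundamental class lies in `F^0 CH^0`. -/
lemma one_fil {π : ℕ → C.A (X.prod X)} (hπ : IsCK H X π) : (1 : C.A X) ∈ ckFil C π 0 0 := by
  rw [hπ.mem_ckFil]
  refine ⟨C.one_mem X, fun j hj => ?_⟩
  obtain ⟨q, hq⟩ := hC.gr_zero X (C.act (π j) 1) (act_mem0 C (hπ.deg j) (C.one_mem X))
  by_cases hq0 : q = 0
  · rw [hq, hq0, zero_smul]
  · exfalso
    apply hH.one_ne_zero X
    have h1 : H.cl (C.act (π j) (1 : C.A X)) = 0 := by
      rw [cl_act, map_one]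
      exact hπ.act_ne j 0 1 (by omega) (H.one_mem X)
    rw [hq] at h1
    have h2 : (1 : C.A X) = (q⁻¹ • (1 : C.A X)) * (q • (1 : C.A X)) := by
      rw [smul_mul_smul_comm, inv_mul_cancel₀ hq0, one_mul, one_smul]
    rw [← map_one H.cl, h2, map_mul, h1, mul_zero]

theorem tfae_func :
    List.TFAE [∀ X : 𝒱.Obj, MurreC H X, StableCorr H, StablePull H, StablePush H,
      StableMul H] := by
  tfae_have 1 → 2 := by
    intro h X Y π ρ hπ hρ r Γ hΓ i j n hij x hx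
    exact act_fil (murreB0_of_C0 (X.prod Y) fun π π' h1 h2 i => h (X.prod Y) π π' h1 h2 i 0)
      hπ hρ hΓ hij hx
  tfae_have 2 → 3 := by
    intro h X Y π ρ hπ hρ f i n y hy
    have h1 := h Y X ρ π hρ hπ 0 (C.cograph f) (cograph_mem (H := H) f) i i n (by omega) y hy
    rwa [C.act_cograph] at h1
  tfae_have 2 → 4 := by
    intro h X Y π ρ hπ hρ f i j n hij x hx
    have h1 := h X Y π ρ hπ hρ _ (C.graph f) (graph_mem (H := H) f) i j n (by omega) x hx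
    rwa [C.act_graph] at h1
  tfae_have 3 → 1 := by
    intro h X
    have key : ∀ π π', IsCK H X π → IsCK H X π' → ∀ i n : ℕ, ckFil C π i n ≤ ckFil C π' i n := by
      intro π π' hπ hπ' i n x hx
      have h1 := h X X π' π hπ' hπ (𝟙 X) i n x hx
      rwa [show C.up (𝟙 X) x = x from C.pull_id x] at h1
    exact fun π π' hπ hπ' i n => le_antisymm (key π π' hπ hπ' i n) (key π' π hπ' hπ i n)
  tfae_have 4 → 1 := by
    intro h X
    have key : ∀ π π', IsCK H X π → IsCK H X π' → ∀ i n : ℕ, ckFil C π i n ≤ ckFil C π' i n := by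
      intro π π' hπ hπ' i n x hx
      have h1 := h X X π π' hπ hπ' (𝟙 X) i i n (by omega) x hx
      rwa [show C.down (𝟙 X) x = x from C.push_id x] at h1
    exact fun π π' hπ hπ' i n => le_antisymm (key π π' hπ hπ' i n) (key π' π hπ' hπ i n)
  tfae_have 3 → 5 := by
    intro h X π ρ σ hπ hρ hσ i j m n x hx y hy
    have h1 := h X (X.prod X) σ (prodCK C π ρ) hσ (hπ.prod hρ) (Obj.lift (𝟙 X) (𝟙 X)) (i + j)
      (m + n) _ (ext_fil hπ hρ hx hy)
    have h2 : C.up (Obj.lift (𝟙 X) (𝟙 X)) (C.ext x y) = C.mul x y := by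
      show C.pull _ (C.ext x y) = x * y
      rw [TheoryData.ext, map_mul, ← C.pull_comp, ← C.pull_comp, lift_fst, lift_snd, C.pull_id,
        C.pull_id]
    rwa [h2] at h1
  tfae_have 5 → 1 := by
    intro h X
    have key : ∀ π π', IsCK H X π → IsCK H X π' → ∀ i n : ℕ, ckFil C π i n ≤ ckFil C π' i n := by
      intro π π' hπ hπ' i n x hx
      have h1 := h X π π π' hπ hπ hπ' i 0 n 0 x hx 1 (one_fil hπ)
      rwa [show C.mul x 1 = x from mul_one x] at h1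
    exact fun π π' hπ hπ' i n => le_antisymm (key π π' hπ hπ' i n) (key π' π hπ' hπ i n)
  tfae_finish

end Pool.Agent.T9h37.MC
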