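import Pool.Agent.T9h37.MC.Base

/-!
# Murre's conjecture (C) for all varieties is equivalent to Kimura finiteness and one half of (B)
-/

open CategoryTheory AlgebraicGeometry

set_option autoImplicit false

universe u v w

namespace Pool.Agent.T9h37.MC

open Pool.Agent.H914 Pool.Agent.H914.VarClass Pool.Agent.H914.VarClass.Obj Pool.Agent.W492.BB
  Pool.Agent.W550.Corr Pool.Agent.TH133 Pool.Agent.Y110 Pool.Agent.TH829.Kim

set_option linter.unusedSectionVars false

variable {k : Type u} [Field k] {𝒱 : VarClass k} {C : TheoryData.{u, v, 0} 𝒱 ℚ}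
  [hC : IsChowProj C] {K : Type w} [Field K]
  {H : WeilTheoryData.{u, v, w} C K} [hH : IsWeilProj H] {X Y Z W : 𝒱.Obj}

include hC hH

/-- a sandwiched product of homologically trivial correspondences is homologically trivial -/
lemma cl_mul3 {a q b : Cor C X} (hcl : H.cl (q : C.A (X.prod X)) = 0) :
    H.cl ((a * q * b : Cor C X) : C.A (X.prod X)) = 0 := by
  apply hom_zero_of_act
  intro x
  have h : actH C X H (a * q * b) x = 0 := by
    rw [map_mul, map_mul, Module.End.mul_apply, Module.End.mul_apply]
    have h0 : ∀ y : H.A X, actH C X H q y = 0 := fun y => actH_zero_of_cl hcl y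
    rw [h0, map_zero]
  exact h

/-- The first half of (B) for `X` and `X × X` excludes phantoms of `X`. -/
theorem noPhantoms_of_B0 (hB : MurreB0 H (X.prod X)) {P : ℕ → Cor C X} (hP : IsCK H X P) :
    NoPhantoms H X := by
  intro p hp hpp hcl
  let q : Cor C X := p
  have hq : q ∈ cor0 C X := hp
  have hqq : q * q = q := hpp
  have hm : ∀ i, P i ∈ cor0 C X := hP.deg
  have htri : ∀ j b : ℕ, j < b → ∀ γ ∈ cor0 C X, P b * γ * P j = 0 := fun j b hjb γ hγ =>
    tri_zero hB hP hP hjb hγ
  have hone : ∑ i ∈ Finset.range (2 * X.dim + 1), P i = 1 := hP.sum_eq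
  -- the product of blocks
  have hblock : ∀ b j : ℕ, P b * q * P j =
      ∑ m ∈ Finset.range (2 * X.dim + 1), (P b * q * P m) * (P m * q * P j) := by
    intro b j
    have h1 : ∀ m, (P b * q * P m) * (P m * q * P j) = (P b * q) * P m * (q * P j) := by
      intro m
      have h2 : P m * P m = P m := by rw [hP.mul_eq, if_pos rfl]
      calc (P b * q * P m) * (P m * q * P j) = P b * q * (P m * P m) * (q * P j) := by
            simp only [mul_assoc]
        _ = _ := by rw [h2]
    simp only [h1]
    rw [← Finset.sum_mul, ← Finset.mul_sum, hone, mul_one]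
    calc P b * q * P j = P b * (q * q) * P j := by rw [hqq]
      _ = _ := by simp only [mul_assoc]
  -- diagonal blocks vanish
  have hdiag : ∀ i, i ≤ 2 * X.dim → P i * q * P i = 0 := by
    intro i hi
    set r : Cor C X := P i * q * P i with hr
    have hii : P i * P i = P i := by rw [hP.mul_eq, if_pos rfl]
    have hrm : r ∈ cor0 C X := (cor0 C X).mul_mem ((cor0 C X).mul_mem (hm i) hq) (hm i)
    have hrr : r * r = r := by
      have h1 := hblock i i
      rw [Finset.sum_eq_single i] at h1
      · exact h1.symm
      · intro m _ hmi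
        rcases lt_or_gt_of_ne hmi with h | h
        · rw [htri m i h q hq, zero_mul]
        · rw [htri i m h q hq, mul_zero]
      · intro h
        exact absurd (Finset.mem_range.2 (by omega)) h
    have h1 : P i * r = r := by rw [hr, ← mul_assoc, ← mul_assoc, hii]
    have h2 : r * P i = r := by rw [hr, mul_assoc, hii]
    have hrcl : H.cl (r : C.A (X.prod X)) = 0 := cl_mul3 hcl
    rcases Nat.eq_zero_or_pos X.dim with hd | hd
    · -- a point
      obtain ⟨c, hc⟩ := hC.gr_zero (X.prod X) r (by
        have h3 : (r : C.A (X.prod X)) ∈ C.gr (X.prod X) X.dim := hrm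
        rw [hd] at h3
        exact_mod_cast h3)
      by_cases hc0 : c = 0
      · rw [hc0, zero_smul] at hc
        exact hc
      · exfalso
        apply hH.one_ne_zero (X.prod X)
        obtain ⟨r', hr'⟩ : ∃ r' : C.A (X.prod X), r' = r := ⟨r, rfl⟩
        rw [← hr'] at hc hrcl
        have h4 : (1 : C.A (X.prod X)) = (c⁻¹ • (1 : C.A (X.prod X))) * r' := by
          rw [hc, smul_mul_smul_comm, inv_mul_cancel₀ hc0, one_mul, one_smul]
        rw [← map_one H.cl, h4, map_mul, hrcl, mul_zero]
    · -- move the phantom to another degree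
      obtain ⟨s, hs, hsi⟩ : ∃ s, s ≤ 2 * X.dim ∧ s ≠ i := by
        by_cases h0 : i = 0
        · exact ⟨1, by omega, by omega⟩
        · exact ⟨0, by omega, by omega⟩
      have hQ : IsCK H X (move P r i s) := move_isCK hP hrm hrcl hrr (Ne.symm hsi) hi hs h1 h2
      have hQs : move P r i s s = P s + r := by
        unfold move
        rw [if_neg hsi, if_pos rfl]
      rcases lt_or_gt_of_ne hsi with h | h
      · -- `s < i`
        have h3 := tri_zero hB hQ hP h (γ := 1) (cor0 C X).one_mem
        rw [hQs, mul_one, mul_add, hP.mul_eq, if_neg (Ne.symm hsi), zero_add, h1] at h3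
        exact h3
      · have h3 := tri_zero hB hP hQ h (γ := 1) (cor0 C X).one_mem
        rw [hQs, mul_one, add_mul, hP.mul_eq, if_neg hsi, zero_add, h2] at h3
        exact h3
  -- all blocks vanish
  have hall : ∀ n b j : ℕ, j ≤ 2 * X.dim → j = b + n → P b * q * P j = 0 := by
    intro n
    induction n using Nat.strong_induction_on with
    | _ n ih =>
      intro b j hj hbj
      rcases Nat.eq_zero_or_pos n with hn | hn
      · subst hn
        rw [add_zero] at hbj
        subst hbj
        exact hdiag j hj
      · rw [hblock]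
        apply Finset.sum_eq_zero
        intro m hm'
        rw [Finset.mem_range] at hm'
        by_cases h1 : m < b
        · rw [htri m b h1 q hq, zero_mul]
        · by_cases h2 : j < m
          · rw [htri j m h2 q hq, mul_zero]
          · by_cases h3 : m = j
            · rw [h3, hdiag j hj, mul_zero]
            · rw [ih (m - b) (by omega) b m (by omega) (by omega), zero_mul]
  have hfin : q = ∑ b ∈ Finset.range (2 * X.dim + 1), ∑ j ∈ Finset.range (2 * X.dim + 1),
      P b * q * P j := by
    have h1 : ∀ b, ∑ j ∈ Finset.range (2 * X.dim + 1), P b * q * P j = P b * q := by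
      intro b
      rw [← Finset.mul_sum, hone, mul_one]
    simp only [h1]
    rw [← Finset.sum_mul, hone, one_mul]
  have hq0 : q = 0 := by
    rw [hfin]
    apply Finset.sum_eq_zero
    intro b _
    apply Finset.sum_eq_zero
    intro j hj
    rw [Finset.mem_range] at hj
    by_cases h : j < b
    · exact htri j b h q hq
    · exact hall (j - b) b j (by omega) (by omega)
  exact hq0

end Pool.Agent.T9h37.MC
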