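import Pool.Agent.T9h37.MC.AlgCoh

/-!
# Consequences of Murre's conjecture (C) for a single variety: summary
-/

open CategoryTheory AlgebraicGeometry

set_option autoImplicit false

universe u v w

namespace Pool.Agent.T9h37.MC

open Pool.Agent.H914 Pool.Agent.H914.VarClass Pool.Agent.H914.VarClass.Obj Pool.Agent.W492.BB
  Pool.Agent.W550.Corr Pool.Agent.TH133 Pool.Agent.Y110 Pool.Agent.TH829.Kim
  Pool.Agent.TH829.Prime

set_option linter.unusedSectionVars false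

variable {k : Type u} [Field k] {𝒱 : VarClass k} {C : TheoryData.{u, v, 0} 𝒱 ℚ}
  [hC : IsChowProj C] {K : Type w} [Field K]
  {H : WeilTheoryData.{u, v, w} C K} [hH : IsWeilProj H] {X Y Z W : 𝒱.Obj}

include hC hH

/-- Phantoms commuting with a Chow-Kunneth decomposition act as zero on the Chow groups. -/
theorem phantom_comm (h : MurreC H X) {P : ℕ → Cor C X} (hP : IsCK H X P) {q : Cor C X}
    (hq : q ∈ cor0 C X) (hcl : H.cl (q : C.A (X.prod X)) = 0) (hqq : q * q = q)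
    (hc : ∀ j, P j * q = q * P j) {i : ℕ} {x : C.A X} (hx : x ∈ C.gr X i) :
    actC C X q x = 0 := by
  have h1 : q = ∑ j ∈ Finset.range (2 * X.dim + 1), q * P j := by
    rw [← Finset.mul_sum, hP.sum_eq, mul_one]
  rw [h1, map_sum, LinearMap.sum_apply]
  apply Finset.sum_eq_zero
  intro j _
  have hjj : P j * P j = P j := by rw [hP.mul_eq, if_pos rfl]
  refine phantom_act h hP (q := q * P j) (i := j) ((cor0 C X).mul_mem hq (hP.deg j)) ?_ ?_ ?_ ?_ hx
  · have h2 := cl_mul3 (H := H) (a := 1) (b := P j) hcl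
    rwa [one_mul] at h2
  · calc q * P j * (q * P j) = q * (P j * q) * P j := by simp only [mul_assoc]
      _ = (q * q) * (P j * P j) := by rw [hc]; simp only [mul_assoc]
      _ = _ := by rw [hqq, hjj]
  · rw [← mul_assoc, hc, mul_assoc, hjj]
  · rw [mul_assoc, hjj]

theorem single (X : 𝒱.Obj) :
    (MurreC H X → ∀ π : ℕ → C.A (X.prod X), IsCK H X π →
      (∀ Γ : C.A (X.prod X), C.Deg X.dim Γ → ∀ (i n : ℕ), ∀ x ∈ ckFil C π i n,
        C.act Γ x ∈ ckFil C π i n) ∧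
      (∀ q : C.A (X.prod X), C.Deg X.dim q → H.cl q = 0 → C.comp q q = q →
        (∀ j, C.comp q (π j) = C.comp (π j) q) → ∀ (i : ℕ) (x : C.A X), C.Deg i x →
          C.act q x = 0) ∧
      ∀ i : ℕ, Alg H X i → Alg H X ((X.dim : ℤ) - i) →
        (∀ j : ℕ, j ≠ i → ∀ x : C.A X, C.Deg j x → C.act (π (2 * i)) x = 0) ∧
        ∀ x : C.A X, C.Deg i x → H.cl x = 0 → C.act (π (2 * i)) x = 0) ∧
    ((∀ i : ℤ, Alg H X i) → (∀ m : ℤ, Odd m → H.gr X m = ⊥) →
      (∃ π : ℕ → C.A (X.prod X), IsCK H X π) ∧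
      (MurreC H X ↔ ∀ (i : ℕ) (x : C.A X), C.Deg i x → H.cl x = 0 → x = 0)) := by
  refine ⟨fun h π hπ => ⟨fun Γ hΓ i n x hx => stable_self h (P := π) hπ hΓ hx,
    fun q hq hcl hqq hc i x hx => ?_, fun i hi hi' => alg_block h (P := π) hπ ⟨hi, hi'⟩⟩,
    fun hA ho => ⟨?_, murreC_iff hA ho⟩⟩
  · exact phantom_comm h (P := π) hπ (q := q) hq hcl hqq (fun j => hc j) hx
  · obtain ⟨P, hP, -⟩ := exists_ck hA ho
    exact ⟨P, hP⟩

end Pool.Agent.T9h37.MC
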